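import Pool.Agent.Z864.SX.SelH
import Pool.Agent.Y214.SX.RKSHA
import Pool.Agent.Y833.SX.Sel
import Pool.Agent.Y667.PA.MainR

/-!
# Project SX (helper667): assembly
-/

set_option autoImplicit false

namespace Pool.Agent.Y667.SX

open WeierstrassCurve Pool.Agent.TH841.SH.D
open Pool.Agent.Y667.BK (tor_add tor_neg SelInf)
open Pool.Agent.W307.SE (SelR)
open Pool.Agent.W307.RT (Sh HasT)
open Pool.Agent.TH841.SH (selHom)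

theorem sx_of {c : ℤ × ℤ} (hD : 4 * c.1 ^ 3 + 27 * c.2 ^ 2 ≠ 0) (hT : HasT 2 (Sh c.1 c.2))
    (hS : (SelR c.1 c.2).Finite) {r : ℕ} (hc : (SelR c.1 c.2).ncard = 2 ^ (r + 2)) :
    (Finite (Sel2H (Sh c.1 c.2)) ∧ Nat.card (Sel2H (Sh c.1 c.2)) = 2 ^ (r + 2)) ∧
    (Finite {x : Sha (Sh c.1 c.2) // x + x = 0} ∧
      2 ^ Module.finrank ℤ (Sh c.1 c.2).toAffine.Point *
        Nat.card {x : Sha (Sh c.1 c.2) // x + x = 0} = 2 ^ r) ∧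
    (Finite {x : SelInf (Sh c.1 c.2) // x + x = 0} ∧
      Nat.card {x : SelInf (Sh c.1 c.2) // x + x = 0} = 2 ^ r) := by
  obtain ⟨F, -, hF⟩ := Pool.Agent.W513.FK.parf
  obtain ⟨-, -, -, -, -, e1, e2, e3, he, -, -⟩ := hF c hD hT
  obtain ⟨h1, h2⟩ := Pool.Agent.Z864.SX.SELH c.1 c.2 e1 e2 e3 hD he hS
  obtain ⟨h3, h4⟩ := Pool.Agent.Y214.SX.RKSHA c.1 c.2 e1 e2 e3 hD he h1
  obtain ⟨h5⟩ := Pool.Agent.Y833.SX.SEL2 c.1 c.2 e1 e2 e3 hD he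
  obtain ⟨h6, h7⟩ := Pool.Agent.Y833.SX.SELI c.1 c.2 e1 e2 e3 hD he h1
  rw [hc] at h2
  have e4 : (2 : ℕ) ^ (r + 2) = 4 * 2 ^ r := by ring
  refine ⟨⟨Finite.of_equiv _ h5.symm, (Nat.card_congr h5).trans h2⟩, ⟨h3, ?_⟩, ⟨h6, ?_⟩⟩
  · rw [h2, e4] at h4
    have e5 : 4 * (2 ^ Module.finrank ℤ (Sh c.1 c.2).toAffine.Point *
        Nat.card {x : Sha (Sh c.1 c.2) // x + x = 0}) = 4 * 2 ^ r := by
      rw [← h4]
      ring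
    exact Nat.eq_of_mul_eq_mul_left (by norm_num) e5
  · rw [h2, e4] at h7
    exact Nat.eq_of_mul_eq_mul_left (by norm_num) h7

end Pool.Agent.Y667.SX
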