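import Pool.Agent.Y667.RZ.Sha
import Pool.Agent.Y667.BK.SelInf

/-!
# Project SX (helper667): the 2-Selmer group as a cohomology group, statements of the parts
-/

set_option autoImplicit false

namespace Pool.Agent.Y667.SX

open WeierstrassCurve Pool.Agent.TH841.SH.D
open Pool.Agent.Y667.BK (tor_add tor_neg SelInf)
open Pool.Agent.W307.SE (SelR)
open Pool.Agent.W307.RT (Sh)
open Pool.Agent.TH841.SH (selHom)

section

variable {k : Type} [Field k]

/-- the values of `f` are points of order dividing `2` -/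
def IsTwo (W : WeierstrassCurve k) (f : Coch W) : Prop := ∀ σ, f σ + f σ = 0

/-- `f` is the coboundary of a point of order dividing `2` -/
def IsCob2 (W : WeierstrassCurve k) (f : Coch W) : Prop :=
  ∃ P : Pt W (AlgebraicClosure k), P + P = 0 ∧ ∀ σ : Gal k, f σ = act W σ.toAlgHom P - P

/-- the group of the coboundaries of the points of order dividing `2` -/
def cob2 (W : WeierstrassCurve k) : AddSubgroup (Coch W) where
  carrier := {f | IsCob2 W f}
  zero_mem' := ⟨0, add_zero 0, fun σ => by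
    change (0 : Pt W (AlgebraicClosure k)) = act W σ.toAlgHom 0 - 0
    rw [map_zero, sub_zero]⟩
  add_mem' := by
    rintro f g ⟨P, hP1, hP2⟩ ⟨Q, hQ1, hQ2⟩
    refine ⟨P + Q, ?_, fun σ => ?_⟩
    · have : P + Q + (P + Q) = (P + P) + (Q + Q) := by abel
      rw [this, hP1, hQ1, add_zero]
    · change f σ + g σ = _
      rw [hP2, hQ2, map_add]
      abel
  neg_mem' := by
    rintro f ⟨P, hP1, hP2⟩
    refine ⟨-P, ?_, fun σ => ?_⟩
    · have : -P + -P = -(P + P) := by abel
      rw [this, hP1, neg_zero]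
    · change -f σ = _
      rw [hP2, map_neg]
      abel

end

/-- `f` is a continuous cocycle with values in `W[2]` whose classes in `H¹(ℚ_v, W)` are trivial for
all the places `v` -/
def IsSel2 (W : WeierstrassCurve ℚ) (f : Coch W) : Prop := IsShaCoc W f ∧ IsTwo W f

/-- the group of the Selmer cocycles -/
def sel2Coc (W : WeierstrassCurve ℚ) : AddSubgroup (Coch W) where
  carrier := {f | IsSel2 W f}
  zero_mem' := ⟨sha_zero W, fun σ => add_zero (0 : Pt W (AlgebraicClosure ℚ))⟩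
  add_mem' := by
    rintro f g ⟨a1, a2⟩ ⟨b1, b2⟩
    refine ⟨sha_add a1 b1, fun σ => ?_⟩
    change f σ + g σ + (f σ + g σ) = 0
    have : f σ + g σ + (f σ + g σ) = (f σ + f σ) + (g σ + g σ) := by abel
    rw [this, a2, b2, add_zero]
  neg_mem' := by
    rintro f ⟨a1, a2⟩
    refine ⟨sha_neg a1, fun σ => ?_⟩
    change -f σ + -f σ = 0
    have : -f σ + -f σ = -(f σ + f σ) := by abel
    rw [this, a2, neg_zero]

/-- the `2`-Selmer group `ker (H¹(ℚ, W[2]) → ∏ H¹(ℚ_v, W))` -/
def Sel2H (W : WeierstrassCurve ℚ) : Type := sel2Coc W ⧸ (cob2 W).addSubgroupOf (sel2Coc W)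

/-- **SELH** (the 2-Selmer homomorphisms and the families of squarefree integers). -/
def St_SELH : Prop := ∀ (A B e1 e2 e3 : ℤ), 4 * A ^ 3 + 27 * B ^ 2 ≠ 0 →
  (∀ x : ℤ, x ^ 3 + A * x + B = (x - e1) * (x - e2) * (x - e3)) → (SelR A B).Finite →
    Finite (selHom (Sh A B)) ∧ Nat.card (selHom (Sh A B)) = (SelR A B).ncard

/-- **RKSHA** (the exact sequence with the rank and the Tate-Shafarevich group). -/
def St_RKSHA : Prop := ∀ (A B e1 e2 e3 : ℤ), 4 * A ^ 3 + 27 * B ^ 2 ≠ 0 →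
  (∀ x : ℤ, x ^ 3 + A * x + B = (x - e1) * (x - e2) * (x - e3)) → Finite (selHom (Sh A B)) →
    Finite {x : Sha (Sh A B) // x + x = 0} ∧
    2 ^ (Module.finrank ℤ (Sh A B).toAffine.Point + 2) * Nat.card {x : Sha (Sh A B) // x + x = 0} =
      Nat.card (selHom (Sh A B))

/-- **SEL2** (the Selmer group is the group of the Selmer homomorphisms). -/
def St_SEL2 : Prop := ∀ (A B e1 e2 e3 : ℤ), 4 * A ^ 3 + 27 * B ^ 2 ≠ 0 →
  (∀ x : ℤ, x ^ 3 + A * x + B = (x - e1) * (x - e2) * (x - e3)) →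
    Nonempty (Sel2H (Sh A B) ≃ selHom (Sh A B))

/-- **SELI** (the elements of order two of the `2 ^ ∞`-Selmer group). -/
def St_SELI : Prop := ∀ (A B e1 e2 e3 : ℤ), 4 * A ^ 3 + 27 * B ^ 2 ≠ 0 →
  (∀ x : ℤ, x ^ 3 + A * x + B = (x - e1) * (x - e2) * (x - e3)) → Finite (selHom (Sh A B)) →
    Finite {x : SelInf (Sh A B) // x + x = 0} ∧
    4 * Nat.card {x : SelInf (Sh A B) // x + x = 0} = Nat.card (selHom (Sh A B))

end Pool.Agent.Y667.SX
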